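import Pool.Agent.Lib.MP_25b479_co.Kneser

namespace Pool.Agent.Results.MP_25b479_co.AllModuli

open scoped Pointwise
open Pool.Agent.Lib.MP_25b479_co

/-- `A` is zero-3-sum-free over `ℤ`: no `a, b, c ∈ A`, not necessarily distinct, satisfy
`a + b + c = 0` or `a + b = c`. -/
def ZeroThreeFree {n : ℕ} (A : Finset (ZMod n)) : Prop :=
  ∀ a ∈ A, ∀ b ∈ A, ∀ c ∈ A, a + b + c ≠ 0 ∧ a + b ≠ c

/-- `τ_±(ℤ_n, 3)`, the maximum size of a zero-3-sum-free subset of `ℤ_n`. -/
noncomputable def tau (n : ℕ) : ℕ :=
  sSup {k : ℕ | ∃ A : Finset (ZMod n), ZeroThreeFree A ∧ A.card = k}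

open Classical in
/-- The function `v(n)`: `(1 + 1/p) n/3` if `p` is the smallest prime divisor of `n` congruent to
`2` modulo `3`, and `⌊(n-1)/3⌋` if there is no such prime divisor. -/
noncomputable def v (n : ℕ) : ℚ :=
  if h : ∃ p : ℕ, p.Prime ∧ p ∣ n ∧ p % 3 = 2 then
    (1 + 1 / (Nat.find h : ℚ)) * ((n : ℚ) / 3)
  else (⌊((n : ℚ) - 1) / 3⌋ : ℚ)

/-! ### Upper bound through Kneser's theorem -/

theorem bound_aux {n : ℕ} (hn : 0 < n) (A : Finset (ZMod n)) (hA : ZeroThreeFree A) :
    ∃ s q h : ℕ, n = q * h ∧ 0 < h ∧ 3 * s ≤ q + 1 ∧ A.card ≤ s * h := by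
  classical
  have : NeZero n := ⟨hn.ne'⟩
  rcases A.eq_empty_or_nonempty with rfl | hne
  · exact ⟨0, n, 1, by simp, one_pos, by omega, by simp⟩
  -- the stabiliser of A + A
  let S : AddSubgroup (ZMod n) :=
    { carrier := {g | ∀ x, g + x ∈ A + A ↔ x ∈ A + A}
      zero_mem' := by intro x; simp
      add_mem' := by
        intro g h hg hh x
        rw [add_assoc, hg, hh]
      neg_mem' := by
        intro g hg x
        have := hg (-g + x)
        rw [add_neg_cancel_left] at this
        exact this.symm }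
  have hS : ∀ g ∈ S, ∀ x, g + x ∈ A + A ↔ x ∈ A + A := fun g hg => hg
  let A' : Finset (ZMod n) := Finset.univ.filter (fun x => ∃ a ∈ A, x - a ∈ S)
  have hAA' : A ⊆ A' := by
    intro a ha
    simp only [A', Finset.mem_filter, Finset.mem_univ, true_and]
    exact ⟨a, ha, by simp⟩
  have hsum : A' + A' = A + A := by
    apply Finset.Subset.antisymm
    · intro z hz
      rw [Finset.mem_add] at hz
      obtain ⟨x, hx, y, hy, rfl⟩ := hz
      simp only [A', Finset.mem_filter, Finset.mem_univ, true_and] at hx hy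
      obtain ⟨a, ha, hxa⟩ := hx
      obtain ⟨b, hb, hyb⟩ := hy
      have h1 : (x - a) + (y - b) ∈ S := S.add_mem hxa hyb
      have h2 := (hS _ h1 (a + b)).2 (Finset.add_mem_add ha hb)
      have e : x - a + (y - b) + (a + b) = x + y := by abel
      rwa [e] at h2
    · exact Finset.add_subset_add hAA' hAA'
  obtain ⟨H, hH1, hH2⟩ := kneser_weak A' A' (hne.mono hAA') (hne.mono hAA')
  rw [hsum] at hH1 hH2
  have hHS : H ≤ S := by
    intro g hg x
    constructor
    · intro hx
      have := hH1.2 (-g) (H.neg_mem hg) _ hx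
      simpa using this
    · exact hH1.2 g hg x
  have hcardHS : Nat.card H ≤ Nat.card S := AddSubgroup.card_le_of_le hHS
  have hdisj : Disjoint A' (A + A) := by
    rw [Finset.disjoint_left]
    intro x hx hx2
    simp only [A', Finset.mem_filter, Finset.mem_univ, true_and] at hx
    obtain ⟨a, ha, hxa⟩ := hx
    have h2 := (hS _ hxa a).1 (by simpa using hx2)
    rw [Finset.mem_add] at h2
    obtain ⟨b, hb, c, hc, hbc⟩ := h2
    exact (hA b hb c hc a ha).2 hbc
  have hn1 : A'.card + (A + A).card ≤ n := by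
    rw [← Finset.card_union_of_disjoint hdisj]
    calc _ ≤ Fintype.card (ZMod n) := Finset.card_le_univ _
      _ = n := ZMod.card n
  -- card A' is a multiple of card S
  have hdvd : Nat.card S ∣ A'.card := by
    rw [Finset.card_eq_sum_card_image (fun x => (QuotientAddGroup.mk x : ZMod n ⧸ S))]
    apply Finset.dvd_sum
    intro q hq
    rw [Finset.mem_image] at hq
    obtain ⟨x, hx, rfl⟩ := hq
    have hfS : (S : Set (ZMod n)).Finite := Set.toFinite _
    have : Finset.filter (fun y => (QuotientAddGroup.mk y : ZMod n ⧸ S) = QuotientAddGroup.mk x) A'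
        = coset S hfS x := by
      ext y
      rw [Finset.mem_filter, mem_coset]
      constructor
      · rintro ⟨_, h⟩
        have := (QuotientAddGroup.eq.1 h.symm)
        have e : y - x = -x + y := by abel
        rwa [e]
      · intro h
        refine ⟨?_, ?_⟩
        · simp only [A', Finset.mem_filter, Finset.mem_univ, true_and] at hx ⊢
          obtain ⟨a, ha, hxa⟩ := hx
          refine ⟨a, ha, ?_⟩
          have e : y - a = (y - x) + (x - a) := by abel
          rw [e]
          exact S.add_mem h hxa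
        · symm
          rw [QuotientAddGroup.eq]
          have e : -x + y = y - x := by abel
          rwa [e]
    rw [this, card_coset]
  obtain ⟨s, hs⟩ := hdvd
  have hq : Nat.card S ∣ n := by
    have := AddSubgroup.card_addSubgroup_dvd_card S
    rwa [Nat.card_zmod] at this
  obtain ⟨q, hq⟩ := hq
  have hpos : 0 < Nat.card S := Nat.card_pos
  refine ⟨s, q, Nat.card S, by rw [mul_comm]; exact hq, hpos, ?_, ?_⟩
  · have h3 : 3 * A'.card ≤ n + Nat.card S := by omega
    rw [hs] at h3
    have h4 : Nat.card S * (3 * s) ≤ Nat.card S * (q + 1) := by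
      calc Nat.card S * (3 * s) = 3 * (Nat.card S * s) := by ring
        _ ≤ n + Nat.card S := h3
        _ = Nat.card S * (q + 1) := by rw [mul_add, mul_one, ← hq]
    exact Nat.le_of_mul_le_mul_left h4 hpos
  · calc A.card ≤ A'.card := Finset.card_le_card hAA'
      _ = s * Nat.card S := by rw [hs, mul_comm]

theorem exists_prime (q : ℕ) (hq : q % 3 = 2) : ∃ r : ℕ, r.Prime ∧ r ∣ q ∧ r % 3 = 2 := by
  by_contra hcon
  push Not at hcon
  revert hq
  induction q using induction_on_primes with
  | zero => omega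
  | one => omega
  | prime_mul r m hr ih =>
    intro hq
    have hr2 : r % 3 ≠ 2 := hcon r hr (Dvd.intro _ rfl)
    have hm2 : m % 3 ≠ 2 := by
      intro hm
      exact ih (fun r' hr' hd => hcon r' hr' (hd.mul_left _)) hm
    have h1 : r % 3 < 3 := Nat.mod_lt _ (by norm_num)
    have h2 : m % 3 < 3 := Nat.mod_lt _ (by norm_num)
    rw [Nat.mul_mod] at hq
    interval_cases h3 : r % 3 <;> interval_cases h4 : m % 3 <;> simp_all

theorem symm_free {n : ℕ} (A : Finset (ZMod n)) (hA : ZeroThreeFree A) :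
    ZeroThreeFree (A ∪ A.image (fun x => -x)) := by
  classical
  intro a ha b hb c hc
  simp only [Finset.mem_union, Finset.mem_image] at ha hb hc
  rcases ha with ha | ⟨a', ha, rfl⟩ <;> rcases hb with hb | ⟨b', hb, rfl⟩ <;>
    rcases hc with hc | ⟨c', hc, rfl⟩
  · exact hA a ha b hb c hc
  · refine ⟨fun h => (hA a ha b hb c' hc).2 ?_, fun h => (hA a ha b hb c' hc).1 ?_⟩
    · linear_combination h
    · linear_combination h
  · refine ⟨fun h => (hA a ha c hc b' hb).2 ?_, fun h => (hA b' hb c hc a ha).2 ?_⟩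
    · linear_combination h
    · linear_combination -h
  · refine ⟨fun h => (hA b' hb c' hc a ha).2 ?_, fun h => (hA a ha c' hc b' hb).2 ?_⟩
    · linear_combination -h
    · linear_combination h
  · refine ⟨fun h => (hA b hb c hc a' ha).2 ?_, fun h => (hA a' ha c hc b hb).2 ?_⟩
    · linear_combination h
    · linear_combination -h
  · refine ⟨fun h => (hA a' ha c' hc b hb).2 ?_, fun h => (hA b hb c' hc a' ha).2 ?_⟩
    · linear_combination -h
    · linear_combination h
  · refine ⟨fun h => (hA a' ha b' hb c hc).2 ?_, fun h => (hA a' ha b' hb c hc).1 ?_⟩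
    · linear_combination -h
    · linear_combination -h
  · refine ⟨fun h => (hA a' ha b' hb c' hc).1 ?_, fun h => (hA a' ha b' hb c' hc).2 ?_⟩
    · linear_combination -h
    · linear_combination -h

theorem even_symm {n : ℕ} (hn : n % 2 = 1) (A : Finset (ZMod n)) (hA : ZeroThreeFree A) :
    Even (A ∪ A.image (fun x => -x)).card := by
  classical
  have hfree := symm_free A hA
  set B := A ∪ A.image (fun x => -x) with hB
  have h0 : (∑ _x ∈ B, (1 : ZMod 2)) = 0 := by
    apply Finset.sum_involution (fun x _ => -x)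
    · intro a _
      decide
    · intro a ha _ h
      have h2 : a + a = 0 := by
        have : -a + a = a + a := by rw [h]
        simpa using this.symm
      have h3 : a + a + a ≠ 0 := (hfree a ha a ha a ha).1
      -- a = 0
      have hodd : IsUnit (2 : ZMod n) := by
        have : Nat.Coprime 2 n := by
          rw [Nat.coprime_two_left, Nat.odd_iff]; exact hn
        exact_mod_cast (ZMod.isUnit_iff_coprime 2 n).2 this
      have h4 : (2 : ZMod n) * a = 0 := by rw [two_mul]; exact h2
      have h5 : a = 0 := by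
        rcases hodd with ⟨u, hu⟩
        rw [← hu] at h4
        simpa using h4
      rw [h5] at h3
      simp at h3
    · intro a _
      simp
    · intro a ha
      rw [hB, Finset.mem_union, Finset.mem_image] at ha ⊢
      rcases ha with ha | ⟨a', ha, rfl⟩
      · right; exact ⟨a, ha, rfl⟩
      · left; simpa using ha
  rw [Finset.sum_const, nsmul_eq_mul, mul_one] at h0
  rw [ZMod.natCast_eq_zero_iff] at h0
  exact even_iff_two_dvd.2 h0

theorem upper {n : ℕ} (hn : 0 < n) (A : Finset (ZMod n)) (hA : ZeroThreeFree A) :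
    (A.card : ℚ) ≤ v n := by
  classical
  unfold v
  split_ifs with h
  · set p := Nat.find h with hp
    have hpp := (Nat.find_spec h).1
    obtain ⟨s, q, k, hnq, hk, hs, hc⟩ := bound_aux hn A hA
    have hppos : (0 : ℚ) < p := by exact_mod_cast hpp.pos
    have hcQ : (A.card : ℚ) ≤ s * k := by exact_mod_cast hc
    have hkQ : (0 : ℚ) < k := by exact_mod_cast hk
    have hnQ : (n : ℚ) = q * k := by exact_mod_cast hnq
    by_cases hq : q % 3 = 2
    · obtain ⟨r, hr1, hr2, hr3⟩ := exists_prime q hq
      have hrn : r ∣ n := hr2.trans (Dvd.intro _ hnq.symm)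
      have hpr : p ≤ r := Nat.find_min' h ⟨hr1, hrn, hr3⟩
      have hrq : r ≤ q := Nat.le_of_dvd (by omega) hr2
      have hpq : (p : ℚ) ≤ q := by exact_mod_cast hpr.trans hrq
      have hsQ : (3 : ℚ) * s ≤ q + 1 := by exact_mod_cast hs
      have h1 : (3 : ℚ) * (s * k) ≤ n + k := by
        rw [hnQ]; nlinarith
      have h2 : (k : ℚ) ≤ n / p := by
        rw [le_div_iff₀ hppos, hnQ]
        nlinarith
      have h3 : (1 + 1 / (p : ℚ)) * ((n : ℚ) / 3) = (n + n / p) / 3 := by
        field_simp
      rw [h3]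
      linarith
    · have hs' : 3 * s ≤ q := by omega
      have hsQ : (3 : ℚ) * s ≤ q := by exact_mod_cast hs'
      have h1 : (3 : ℚ) * (s * k) ≤ n := by
        rw [hnQ]; nlinarith
      have h3 : (1 + 1 / (p : ℚ)) * ((n : ℚ) / 3) = (n + n / p) / 3 := by
        field_simp
      have h4 : (0 : ℚ) ≤ n / p := by positivity
      rw [h3]
      linarith
  · -- no prime divisor congruent to 2 modulo 3
    have hno : ∀ q, q ∣ n → q % 3 ≠ 2 := by
      intro q hq h2
      obtain ⟨r, hr1, hr2, hr3⟩ := exists_prime q h2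
      exact h ⟨r, hr1, hr2.trans hq, hr3⟩
    have hodd : n % 2 = 1 := by
      by_contra h2
      exact hno 2 (Nat.dvd_of_mod_eq_zero (by omega)) (by norm_num)
    have hn3 : n % 3 ≠ 2 := hno n dvd_rfl
    -- reduce to a statement about natural numbers
    have key : 3 * A.card + 1 ≤ n := by
      by_cases h0 : n % 3 = 0
      · -- use the symmetric set
        obtain ⟨s, q, k, hnq, hk, hs, hc⟩ := bound_aux hn _ (symm_free A hA)
        have hq3 : q % 3 ≠ 2 := hno q (Dvd.intro _ hnq.symm)
        have hs' : 3 * s ≤ q := by omega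
        have h1 : 3 * (s * k) ≤ n := by
          calc 3 * (s * k) = (3 * s) * k := by ring
            _ ≤ q * k := Nat.mul_le_mul_right _ hs'
            _ = n := hnq.symm
        have hev := even_symm hodd A hA
        rw [Nat.even_iff] at hev
        have hle : A.card ≤ (A ∪ A.image (fun x => -x)).card :=
          Finset.card_le_card Finset.subset_union_left
        omega
      · obtain ⟨s, q, k, hnq, hk, hs, hc⟩ := bound_aux hn A hA
        have hq3 : q % 3 ≠ 2 := hno q (Dvd.intro _ hnq.symm)
        have hq0 : q % 3 ≠ 0 := by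
          intro hq0
          apply h0
          rw [hnq, Nat.mul_mod, hq0]
          simp
        have hs' : 3 * s + 1 ≤ q := by omega
        have h1 : 3 * (s * k) + k ≤ n := by
          calc 3 * (s * k) + k = (3 * s + 1) * k := by ring
            _ ≤ q * k := Nat.mul_le_mul_right _ hs'
            _ = n := hnq.symm
        omega
    have : (A.card : ℤ) ≤ ⌊((n : ℚ) - 1) / 3⌋ := by
      rw [Int.le_floor]
      have hQ : (3 : ℚ) * A.card + 1 ≤ n := by exact_mod_cast key
      push_cast
      linarith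
    exact_mod_cast this

/-! ### Lower bound -/

theorem lower_aux (n p m lo hi : ℕ) (hn : n = p * m) (hp : 0 < p) (hm : 0 < m)
    (hlo : p < 3 * lo) (hhi : 3 * hi < 2 * p + 3) :
    ∃ A : Finset (ZMod n), ZeroThreeFree A ∧ A.card = m * (hi - lo) := by
  classical
  have hn0 : 0 < n := by rw [hn]; positivity
  have : NeZero n := ⟨hn0.ne'⟩
  have hpn : p ∣ n := Dvd.intro _ hn.symm
  let f : ℕ × ℕ → ZMod n := fun x => ((x.2 + p * x.1 : ℕ) : ZMod n)
  refine ⟨(Finset.range m ×ˢ Finset.Ico lo hi).image f, ?_, ?_⟩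
  · have hred : ∀ x y z : ℕ × ℕ, ∀ t : ℕ,
        ((x.2 + p * x.1 : ℕ) : ZMod n) + ((y.2 + p * y.1 : ℕ) : ZMod n) +
        ((z.2 + p * z.1 : ℕ) : ZMod n) = 0 → p ∣ x.2 + y.2 + z.2 := by
      intro x y z _ h
      have h1 : ((x.2 + p * x.1 + (y.2 + p * y.1) + (z.2 + p * z.1) : ℕ) : ZMod n) = 0 := by
        push_cast at h ⊢
        exact h
      rw [ZMod.natCast_eq_zero_iff] at h1
      have h2 := hpn.trans h1
      have h3 : x.2 + p * x.1 + (y.2 + p * y.1) + (z.2 + p * z.1) =
          (x.2 + y.2 + z.2) + p * (x.1 + y.1 + z.1) := by ring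
      rw [h3] at h2
      exact (Nat.dvd_add_left (Dvd.intro _ rfl)).1 h2
    intro a ha b hb c hc
    rw [Finset.mem_image] at ha hb hc
    obtain ⟨x, hx, rfl⟩ := ha
    obtain ⟨y, hy, rfl⟩ := hb
    obtain ⟨z, hz, rfl⟩ := hc
    simp only [Finset.mem_product, Finset.mem_range, Finset.mem_Ico] at hx hy hz
    constructor
    · intro h
      obtain ⟨k, hk⟩ := hred x y z 0 h
      have h1 : p < x.2 + y.2 + z.2 := by omega
      have h2 : x.2 + y.2 + z.2 < p * 2 := by omega
      rw [hk] at h1 h2
      have h3 : 1 < k := by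
        by_contra hk1
        have : k ≤ 1 := by omega
        have : p * k ≤ p * 1 := Nat.mul_le_mul_left _ this
        omega
      have h4 : k < 2 := Nat.lt_of_mul_lt_mul_left h2
      omega
    · intro h
      have h1 : ((x.2 + p * x.1 + (y.2 + p * y.1) : ℕ) : ZMod n) = ((z.2 + p * z.1 : ℕ) : ZMod n) := by
        simp only [f] at h
        push_cast at h ⊢
        exact h
      rw [ZMod.natCast_eq_natCast_iff] at h1
      have h2 : x.2 + p * x.1 + (y.2 + p * y.1) ≡ z.2 + p * z.1 [MOD p] := h1.of_dvd hpn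
      have h3 : x.2 + y.2 ≡ z.2 [MOD p] := by
        have e1 : x.2 + p * x.1 + (y.2 + p * y.1) = (x.2 + y.2) + p * (x.1 + y.1) := by ring
        rw [e1] at h2
        unfold Nat.ModEq at h2 ⊢
        rw [Nat.add_mul_mod_self_left, Nat.add_mul_mod_self_left] at h2
        exact h2
      have h4 : z.2 ≤ x.2 + y.2 := by omega
      have h5 := (Nat.modEq_iff_dvd' h4).1 h3.symm
      obtain ⟨k, hk⟩ := h5
      have h6 : 0 < x.2 + y.2 - z.2 := by omega
      have h7 : x.2 + y.2 - z.2 < p * 1 := by omega
      rw [hk] at h6 h7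
      have h8 : k < 1 := Nat.lt_of_mul_lt_mul_left h7
      have h9 : k = 0 := by omega
      rw [h9] at h6
      simp at h6
  · rw [Finset.card_image_of_injOn]
    · simp
    · intro x hx y hy hxy
      simp only [Finset.coe_product, Set.mem_prod, Finset.mem_coe, Finset.mem_range,
        Finset.mem_Ico] at hx hy
      simp only [f] at hxy
      rw [ZMod.natCast_eq_natCast_iff] at hxy
      have hb : ∀ w : ℕ × ℕ, w.1 < m → w.2 < hi → w.2 + p * w.1 < n := by
        intro w h1 h2
        have h3 : w.2 < p := by omega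
        calc w.2 + p * w.1 < p + p * w.1 := by omega
          _ = p * (w.1 + 1) := by ring
          _ ≤ p * m := Nat.mul_le_mul_left _ h1
          _ = n := hn.symm
      have h1 := hb x hx.1 hx.2.2
      have h2 := hb y hy.1 hy.2.2
      have h3 : x.2 + p * x.1 = y.2 + p * y.1 := Nat.ModEq.eq_of_lt_of_lt hxy h1 h2
      have hx2 : x.2 < p := by omega
      have hy2 : y.2 < p := by omega
      have h4 : x.2 = y.2 := by
        have := congrArg (· % p) h3
        simp only [Nat.add_mul_mod_self_left] at this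
        rwa [Nat.mod_eq_of_lt hx2, Nat.mod_eq_of_lt hy2] at this
      have h5 : p * x.1 = p * y.1 := by omega
      exact Prod.ext (Nat.eq_of_mul_eq_mul_left hp h5) h4

theorem lower {n : ℕ} (hn : 0 < n) :
    ∃ A : Finset (ZMod n), ZeroThreeFree A ∧ (A.card : ℚ) = v n := by
  classical
  unfold v
  split_ifs with h
  · set p := Nat.find h with hp
    obtain ⟨hpp, ⟨m, hm⟩, hp3⟩ := Nat.find_spec h
    rw [← hp] at hpp hm hp3
    have hm0 : 0 < m := by
      rcases Nat.eq_zero_or_pos m with h0 | h0
      · rw [h0] at hm; omega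
      · exact h0
    obtain ⟨t, ht⟩ : ∃ t, p = 3 * t + 2 := ⟨p / 3, by omega⟩
    obtain ⟨A, hA, hc⟩ := lower_aux n p m (t + 1) (2 * t + 2) hm hpp.pos hm0 (by omega) (by omega)
    refine ⟨A, hA, ?_⟩
    have e : 2 * t + 2 - (t + 1) = t + 1 := by omega
    rw [hc, e]
    have hnQ : (n : ℚ) = p * m := by exact_mod_cast hm
    have hpQ : (p : ℚ) = 3 * t + 2 := by exact_mod_cast ht
    have hp0 : (p : ℚ) ≠ 0 := by exact_mod_cast hpp.ne_zero
    rw [hnQ]
    field_simp
    rw [hpQ]
    push_cast
    ring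
  · have hn3 : n % 3 ≠ 2 := by
      intro h2
      obtain ⟨r, hr1, hr2, hr3⟩ := exists_prime n h2
      exact h ⟨r, hr1, hr2, hr3⟩
    have hfl : ∀ t : ℕ, (n = 3 * t + 1 ∨ n = 3 * t + 3) → (⌊((n : ℚ) - 1) / 3⌋ : ℤ) = (t : ℤ) := by
      intro t ht
      rw [Int.floor_eq_iff]
      rcases ht with ht | ht
      · have : (n : ℚ) = 3 * t + 1 := by exact_mod_cast ht
        rw [this]
        push_cast
        constructor <;> linarith
      · have : (n : ℚ) = 3 * t + 3 := by exact_mod_cast ht
        rw [this]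
        push_cast
        constructor <;> linarith
    by_cases h1 : n % 3 = 1
    · obtain ⟨t, ht⟩ : ∃ t, n = 3 * t + 1 := ⟨n / 3, by omega⟩
      obtain ⟨A, hA, hc⟩ := lower_aux n n 1 (t + 1) (2 * t + 1) (by ring) hn one_pos (by omega)
        (by omega)
      refine ⟨A, hA, ?_⟩
      rw [hfl t (Or.inl ht), hc]
      have e : 1 * (2 * t + 1 - (t + 1)) = t := by omega
      rw [e]
      simp
    · obtain ⟨t, ht⟩ : ∃ t, n = 3 * t + 3 := ⟨n / 3 - 1, by omega⟩
      obtain ⟨A, hA, hc⟩ := lower_aux n n 1 (t + 2) (2 * t + 2) (by ring) hn one_pos (by omega)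
        (by omega)
      refine ⟨A, hA, ?_⟩
      rw [hfl t (Or.inr ht), hc]
      have e : 1 * (2 * t + 2 - (t + 2)) = t := by omega
      rw [e]
      simp

/-- For every positive integer `n`, `τ_±(ℤ_n, 3) = v(n)`. -/
theorem result : ∀ n : ℕ, 0 < n → (tau n : ℚ) = v n := by
  intro n hn
  obtain ⟨A, hA, hc⟩ := lower hn
  have hgreat : IsGreatest {k : ℕ | ∃ A : Finset (ZMod n), ZeroThreeFree A ∧ A.card = k} A.card := by
    refine ⟨⟨A, hA, rfl⟩, ?_⟩
    rintro k ⟨B, hB, rfl⟩
    have := upper hn B hB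
    rw [← hc] at this
    exact_mod_cast this
  unfold tau
  rw [hgreat.csSup_eq, hc]

end Pool.Agent.Results.MP_25b479_co.AllModuli
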